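import Pool.Agent.LPR.Stmts

/-!
# Squad LPR, row STB: from stable to S-stable
-/

set_option autoImplicit false

open Set Topology

namespace Pool.Agent.LPR.H66

open Pool.Agent.LSG Pool.Agent.LPR

theorem stb (alg : AlgStmt) (sgs : SgsStmt) (cze : CzeStmt) (bri : BriStmt) : StbStmt := by
  intro X _ hS
  obtain ⟨h1, ⟨e2⟩, ⟨e3⟩⟩ := sgs X
  obtain ⟨e⟩ := (alg ↥(Fo (Set.univ : Set X)) ↥(Fo (Set.univ : Set X))
    ↥(Sg (Set.univ : Set X)) ↥(Sg (Set.univ : Set X))).1 hS (h1 Set.univ)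
  obtain ⟨⟨c⟩, -, -⟩ := cze X
  have h : LEc (X × OnePoint ℕ) X :=
    ⟨((c.trans (e2.symm.prodCongr e3.symm)).trans e.symm).trans e2⟩
  exact (bri.1 (X × OnePoint ℕ) X).2 h

end Pool.Agent.LPR.H66
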